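import Pool.Agent.FlipB_h28.HT5

/-! # A uniform bound for sequences of flips in dimension at most `2 c + 1` -/

open scoped KaehlerDifferential

set_option linter.unusedSectionVars false

universe u

namespace Flip28

variable {k K : Type u} [Field k] [Field K] [Algebra k K] [CharZero k]
  [Algebra.EssFiniteType k K] {n : ℕ} (b : Module.Basis (Fin n) K Ω[K⁄k]) {c : ℕ}

/-- Under the hypotheses of `flips_uniform` no point of codimension at most `c` is new. -/
theorem flips_no_new93 {N : ℕ} {X Y : ℕ → Set (Subalgebra k K)}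
    (hcn' : ∀ i ≤ N, IsCompleteNormal (X i))
    (hg0 : Good b c (X 0)) (hf : ∀ i < N, IsFlip b (X i) (Y i) (X (i + 1)))
    (hper : ∀ i < N, ∀ A ∈ X i, ringKrullDim A < c → A ∈ X (i + 1))
    (hsm : ∀ i ≤ N, ∀ A ∈ X i, ringKrullDim A ≤ c → Algebra.FormallySmooth k A) :
    ∀ i < N, ∀ F ∈ X (i + 1), ringKrullDim F ≤ c → F ∈ X i := by
  have hpersist : ∀ A : Subalgebra k K, ringKrullDim A < c → A ∈ X 0 → ∀ j ≤ N, A ∈ X j := by
    intro A hd hA j
    induction j with
    | zero => exact fun _ => hA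
    | succ j ih => exact fun hj => hper j hj A (ih (by omega)) hd
  have hmono : ∀ E, IsPrimeDiv E → ∀ j ≤ N, disc b (X 0) E ≤ disc b (X j) E := by
    intro E hE j
    induction j with
    | zero => exact fun _ => le_rfl
    | succ j ih =>
      exact fun hj => (ih (by omega)).trans (disc_le b (hcn' j (by omega)) (hf j hj) hE)
  intro i hi F hF hd
  by_contra hF'
  have hs := hsm (i + 1) hi F hF hd
  obtain ⟨R, hR, hK, hRF, -⟩ := (hcn' (i + 1) hi).exists_chart hF
  obtain ⟨e, x, hx⟩ := exists_coord b hR hK hRF hs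
  have he0 : 0 < e := by
    rcases Nat.eq_zero_or_pos e with h0 | h0
    · exfalso
      subst h0
      have h1 : F = ⊤ := ((hcn' (i + 1) hi).eq_top_iff hF).2 (by simpa using hx.dim)
      exact hF' (h1 ▸ (hcn' i hi.le).top_mem)
    · exact h0
  have hec : e ≤ c := by
    rw [hx.dim] at hd
    exact_mod_cast hd
  obtain ⟨E, hE, hFE, hdisc⟩ := hx.exists_blow b (hcn' (i + 1) hi) hF he0
  have hEval : IsVal E := hE.1.isVal
  obtain ⟨A1, hA1, hA1E⟩ := (hcn' i hi.le).exists_centre hEval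
  have hlt := disc_lt b (hcn' i hi.le) (hf i hi) hE hA1 hF hA1E hFE (fun he => hF' (he ▸ hA1))
  have h1 := hmono E hE i hi.le
  obtain ⟨A0, hA0, hA0E⟩ := (hcn' 0 (Nat.zero_le _)).exists_centre hEval
  have hcA : ¬ ringKrullDim A0 < c := by
    intro hcon
    have h2 := hpersist A0 hcon hA0 (i + 1) hi
    have h3 := hpersist A0 hcon hA0 i hi.le
    have h4 : A0 = F := (hcn' (i + 1) hi).unique h2 hF hEval.isLocalRing hA0E hFE
    exact hF' (h4 ▸ h3)
  have hge : (c : ℚ) - 1 ≤ disc b (X 0) E := by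
    by_cases hs : Algebra.FormallySmooth k A0
    · obtain ⟨e', he', -⟩ := dim_le_basis b (hcn' 0 (Nat.zero_le _)) hA0
      have h4 := disc_ge_of_smooth b (hcn' 0 (Nat.zero_le _)) hA0 hs hE hA0E he'
      rw [he', not_lt] at hcA
      have h5 : c ≤ e' := by exact_mod_cast hcA
      have h6 : (c : ℚ) ≤ e' := by exact_mod_cast h5
      linarith
    · exact hg0.disc E hE A0 hA0 hA0E hs
  rw [hdisc] at hlt
  have h7 : (e : ℚ) ≤ c := by exact_mod_cast hec
  linarith

/-- The bound of `flips_uniform` for dimension at most `2 c + 1`. -/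
theorem flips_uniform_succ93 {X0 : Set (Subalgebra k K)} (hX0 : IsCompleteNormal X0)
    (hX0p : IsProj X0) (hg : Good b c X0) (hcn : c < n) :
    ∃ v : ℕ, ∀ (N : ℕ) (X Y : ℕ → Set (Subalgebra k K)), X 0 = X0 →
      (∀ i ≤ N, IsProj (X i)) → (∀ i < N, IsFlip b (X i) (Y i) (X (i + 1))) →
      (∀ i < N, ∀ A ∈ X i, ringKrullDim A < c → A ∈ X (i + 1)) →
      (∀ i ≤ N, ∀ A ∈ X i, ringKrullDim A ≤ c → Algebra.FormallySmooth k A) →
      {i | i < N ∧ ∃ P ∈ X i, P ∉ X (i + 1) ∧ ringKrullDim P = c}.ncard ≤ v ∧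
        (n ≤ 2 * c → N ≤ v) ∧
        ((∀ i < N, ∀ E, IsPrimeDiv E →
            disc b (X i) E ≤ (c : ℚ) - 1 ∨ (c : ℚ) ≤ disc b (X i) E) →
          (∀ i < N, ∀ F ∈ X (i + 1), F ∉ X i → ringKrullDim F = (c : WithBot ℕ∞) + 1 →
            Algebra.FormallySmooth k F ∨
              ∃ E, IsPrimeDiv E ∧ Dom F E ∧ disc b (X (i + 1)) E ≤ c) →
          {i | i < N ∧ ((∃ P ∈ X i, P ∉ X (i + 1) ∧ ringKrullDim P = c) ∨
            ∃ F ∈ X (i + 1), F ∉ X i ∧ ringKrullDim F = (c : WithBot ℕ∞) + 1)}.ncard ≤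
              v + {E | IsPrimeDiv E ∧ (∃ A ∈ X0, Dom A E ∧ ¬ Algebra.FormallySmooth k A) ∧
                disc b X0 E < c}.ncard ∧
          (1 ≤ c → n ≤ 2 * c + 1 →
            N ≤ v + {E | IsPrimeDiv E ∧ (∃ A ∈ X0, Dom A E ∧ ¬ Algebra.FormallySmooth k A) ∧
              disc b X0 E < c}.ncard)) := by
  classical
  obtain ⟨v, hv⟩ := flips_uniform b hX0 hX0p hg hcn
  refine ⟨v, fun N X Y hX00 hP hf hper hsm => ?_⟩
  obtain ⟨hv1, hv2⟩ := hv N X Y hX00 hP hf hper hsm
  refine ⟨hv1, hv2, fun hint hM => ?_⟩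
  have hcn' : ∀ i ≤ N, IsCompleteNormal (X i) := by
    intro i hi
    rcases i with _ | i
    · rw [hX00]
      exact hX0
    · exact (hf i hi).mX'
  have hpersist : ∀ A : Subalgebra k K, ringKrullDim A < c → A ∈ X 0 → ∀ j ≤ N, A ∈ X j := by
    intro A hd hA j
    induction j with
    | zero => exact fun _ => hA
    | succ j ih => exact fun hj => hper j hj A (ih (by omega)) hd
  have hmono : ∀ E, IsPrimeDiv E → ∀ i j, i ≤ j → j ≤ N → disc b (X i) E ≤ disc b (X j) E := by
    intro E hE i j hij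
    induction j, hij using Nat.le_induction with
    | base => exact fun _ => le_rfl
    | succ j hij ih =>
      exact fun hj => (ih (by omega)).trans (disc_le b (hcn' j (by omega)) (hf j hj) hE)
  have hg0 : Good b c (X 0) := by rw [hX00]; exact hg
  have hsub := flips_no_new93 b hcn' hg0 hf hper hsm
  set S : Set ℕ := {i | i < N ∧ ∃ P ∈ X i, P ∉ X (i + 1) ∧ ringKrullDim P = c} with hS
  set D : Set (Subalgebra k K) := {E | IsPrimeDiv E ∧
    (∃ A ∈ X0, Dom A E ∧ ¬ Algebra.FormallySmooth k A) ∧ disc b X0 E < c} with hD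
  have hDfin : D.Finite := hg.fin
  have hno : ∀ i, i < N → i ∉ S → ∀ A ∈ X i, ringKrullDim A ≤ c → A ∈ X (i + 1) := by
    intro i hi hiS A hA hd
    have hcon : ∀ P ∈ X i, P ∉ X (i + 1) → ringKrullDim P ≠ c := by
      intro P hP1 hP2 hP3
      exact hiS ⟨hi, P, hP1, hP2, hP3⟩
    obtain ⟨e, he, -⟩ := dim_le_basis b (hcn' i hi.le) hA
    rcases Nat.lt_or_ge e c with h1 | h1
    · refine hper i hi A hA ?_
      rw [he]
      exact_mod_cast h1
    · by_contra h2
      refine hcon A hA h2 ?_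
      rw [he] at hd ⊢
      have h3 : e ≤ c := by exact_mod_cast hd
      exact_mod_cast (by omega : e = c)
  -- a flip which removes no point of codimension `c` creates one of codimension `c + 1`
  have hnew : 1 ≤ c → n ≤ 2 * c + 1 → ∀ i, i < N → i ∉ S →
      ∃ F ∈ X (i + 1), F ∉ X i ∧ ringKrullDim F = (c : WithBot ℕ∞) + 1 := by
    intro hc1 hn i hi hiS
    have hsmall : ∀ P ∈ X i, IsDVR P → P ∈ Y i := by
      intro P hP' hd
      refine (hf i hi).small' P (hno i hi hiS P hP' ?_) hd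
      rw [((hcn' i hi.le).isDVR_iff hP').1 hd]
      exact_mod_cast hc1
    have htr : Algebra.trdeg k K = n := by
      rw [trdeg_eq_finrank, Module.finrank_eq_card_basis b, Fintype.card_fin]
    obtain ⟨A, hA, A', hA', hAX, hAX', hdim⟩ :=
      exists_big b (hcn' i hi.le) (hf i hi) hsmall htr
    obtain ⟨e, he, -⟩ := dim_le_basis b (hcn' i hi.le) hA
    obtain ⟨e', he', -⟩ := dim_le_basis b (hcn' (i + 1) hi) hA'
    have h1 : c + 1 ≤ e := by
      by_contra hcon2
      refine hAX (hno i hi hiS A hA ?_)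
      rw [he]
      exact_mod_cast (by omega : e ≤ c)
    have h2 : c + 1 ≤ e' := by
      by_contra hcon2
      refine hAX' (hsub i hi A' hA' ?_)
      rw [he']
      exact_mod_cast (by omega : e' ≤ c)
    rw [he, he'] at hdim
    have h3 : e + e' ≤ n + 1 := by exact_mod_cast hdim
    have h4 : e' = c + 1 := by omega
    refine ⟨A', hA', hAX', ?_⟩
    rw [he', h4]
    push_cast
    rfl
  -- the divisor of such a point
  have hdiv : ∀ i, i < N → ∀ F ∈ X (i + 1), F ∉ X i → ringKrullDim F = (c : WithBot ℕ∞) + 1 →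
      ∃ E, IsPrimeDiv E ∧ Dom F E ∧ disc b (X (i + 1)) E ≤ c := by
    intro i hi F hF hF' hd
    rcases hM i hi F hF hF' hd with hs | h
    · obtain ⟨R, hR, hK, hRF, -⟩ := (hcn' (i + 1) hi).exists_chart hF
      obtain ⟨e, x, hx⟩ := exists_coord b hR hK hRF hs
      have hec : e = c + 1 := by
        rw [hx.dim] at hd
        exact_mod_cast hd
      obtain ⟨E, hE, hFE, hdisc⟩ := hx.exists_blow b (hcn' (i + 1) hi) hF (by omega)
      refine ⟨E, hE, hFE, le_of_eq ?_⟩
      rw [hdisc, hec]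
      push_cast
      ring
    · exact h
  -- the other flips
  have hkey : ∀ i, i < N → i ∉ S →
      (∃ F ∈ X (i + 1), F ∉ X i ∧ ringKrullDim F = (c : WithBot ℕ∞) + 1) →
      ∃ E ∈ D, disc b (X i) E ≤ (c : ℚ) - 1 ∧ (c : ℚ) - 1 < disc b (X (i + 1)) E := by
    rintro i hi hiS ⟨A', hA', hAX', hdA'⟩
    obtain ⟨E, hE, hFE, hdE⟩ := hdiv i hi A' hA' hAX' hdA'
    have hEval : IsVal E := hE.1.isVal
    obtain ⟨A1, hA1, hA1E⟩ := (hcn' i hi.le).exists_centre hEval
    have hlt := disc_lt b (hcn' i hi.le) (hf i hi) hE hA1 hA' hA1E hFE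
      (fun he => hAX' (he ▸ hA1))
    have hle : disc b (X i) E ≤ (c : ℚ) - 1 :=
      (hint i hi E hE).resolve_right (not_le.2 (lt_of_lt_of_le hlt hdE))
    have h0i := hmono E hE 0 i (Nat.zero_le _) hi.le
    obtain ⟨A0, hA0, hA0E⟩ := (hcn' 0 (Nat.zero_le _)).exists_centre hEval
    have hcA : ¬ ringKrullDim A0 < c := by
      intro hcon
      have h2 := hpersist A0 hcon hA0 (i + 1) hi
      have h3 := hpersist A0 hcon hA0 i hi.le
      have h4 : A0 = A' := (hcn' (i + 1) hi).unique h2 hA' hEval.isLocalRing hA0E hFE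
      exact hAX' (h4 ▸ h3)
    have hns : ¬ Algebra.FormallySmooth k A0 := by
      intro hs
      obtain ⟨e0, he0, -⟩ := dim_le_basis b (hcn' 0 (Nat.zero_le _)) hA0
      have h4 := disc_ge_of_smooth b (hcn' 0 (Nat.zero_le _)) hA0 hs hE hA0E he0
      rw [he0, not_lt] at hcA
      have h5 : c ≤ e0 := by exact_mod_cast hcA
      have h6 : (e0 : ℚ) ≤ c := by linarith
      have h7 : e0 = c := le_antisymm (by exact_mod_cast h6) h5
      subst h7
      -- the centre persists up to `X i`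
      have hA0j : ∀ j ≤ i, A0 ∈ X j := by
        intro j
        induction j with
        | zero => exact fun _ => hA0
        | succ j ih =>
          intro hj
          by_contra hcon
          have hj0 := ih (by omega)
          obtain ⟨A2, hA2, hA2E⟩ := (hcn' (j + 1) (by omega)).exists_centre hEval
          have h8 := disc_lt b (hcn' j (by omega)) (hf j (by omega)) hE hj0 hA2 hA0E hA2E
            (fun he => hcon (he ▸ hA2))
          have h9 := hmono E hE 0 j (Nat.zero_le _) (by omega)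
          have h10 := hmono E hE (j + 1) i (by omega) hi.le
          linarith
      have h11 := hno i hi hiS A0 (hA0j i le_rfl) he0.le
      have h12 : A0 = A' := (hcn' (i + 1) hi).unique h11 hA' hEval.isLocalRing hA0E hFE
      exact hAX' (h12 ▸ hA0j i le_rfl)
    have hge : (c : ℚ) - 1 ≤ disc b (X 0) E := hg0.disc E hE A0 hA0 hA0E hns
    refine ⟨E, ⟨hE, ⟨A0, hX00 ▸ hA0, hA0E, hns⟩, ?_⟩, hle, ?_⟩
    · rw [← hX00]
      linarith
    · linarith
  set T : Set ℕ := {i | (i < N ∧ i ∉ S) ∧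
    ∃ F ∈ X (i + 1), F ∉ X i ∧ ringKrullDim F = (c : WithBot ℕ∞) + 1} with hT
  choose! f hf1 hf2 hf3 using hkey
  have hTcard : T.ncard ≤ D.ncard := by
    have hlt : ∀ i ∈ T, ∀ j ∈ T, i < j → f i ≠ f j := by
      intro i hi j hj hij he
      have h1 := hmono (f i) (hf1 i hi.1.1 hi.1.2 hi.2).1 (i + 1) j (by omega) hj.1.1.le
      have h2 := hf3 i hi.1.1 hi.1.2 hi.2
      have h3 := hf2 j hj.1.1 hj.1.2 hj.2
      rw [← he] at h3
      linarith
    refine Set.ncard_le_ncard_of_injOn f (fun i hi => hf1 i hi.1.1 hi.1.2 hi.2) ?_ hDfin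
    intro i hi j hj he
    rcases lt_trichotomy i j with h | h | h
    · exact absurd he (hlt i hi j hj h)
    · exact h
    · exact absurd he.symm (hlt j hj i hi h)
  have hall : {i | i < N ∧ ((∃ P ∈ X i, P ∉ X (i + 1) ∧ ringKrullDim P = c) ∨
      ∃ F ∈ X (i + 1), F ∉ X i ∧ ringKrullDim F = (c : WithBot ℕ∞) + 1)} = S ∪ T := by
    ext i
    constructor
    · rintro ⟨hi, h⟩
      by_cases hiS : i ∈ S
      · exact Or.inl hiS
      · rcases h with h | h
        · exact absurd ⟨hi, h⟩ hiS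
        · exact Or.inr ⟨⟨hi, hiS⟩, h⟩
    · rintro (hi | hi)
      · exact ⟨hi.1, Or.inl hi.2⟩
      · exact ⟨hi.1.1, Or.inr hi.2⟩
  have h5 : {i | i < N ∧ ((∃ P ∈ X i, P ∉ X (i + 1) ∧ ringKrullDim P = c) ∨
      ∃ F ∈ X (i + 1), F ∉ X i ∧ ringKrullDim F = (c : WithBot ℕ∞) + 1)}.ncard ≤
      v + D.ncard := by
    rw [hall]
    exact (Set.ncard_union_le S T).trans (Nat.add_le_add hv1 hTcard)
  refine ⟨h5, fun hc1 hn => ?_⟩
  have h6 : {i | i < N ∧ ((∃ P ∈ X i, P ∉ X (i + 1) ∧ ringKrullDim P = c) ∨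
      ∃ F ∈ X (i + 1), F ∉ X i ∧ ringKrullDim F = (c : WithBot ℕ∞) + 1)} = {i | i < N} := by
    ext i
    constructor
    · exact fun hi => hi.1
    · intro hi
      by_cases hiS : i ∈ S
      · exact ⟨hi, Or.inl hiS.2⟩
      · exact ⟨hi, Or.inr (hnew hc1 hn i hi hiS)⟩
  have h4 : {i | i < N}.ncard = N := by
    rw [Set.ncard_eq_toFinset_card' {i | i < N}]
    simp
  rw [h6, h4] at h5
  exact h5

end Flip28
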